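import Pool.Agent.H531.VR.GMn

set_option autoImplicit false

/-!
# The variance of primes in short intervals in the random sieve model of Banks, Ford and Tao

For every prime `q` a residue class `a q` modulo `q` is drawn uniformly and independently. The random primes are
the integers `n ≥ 3` that are in none of the classes `a q mod q` with `q ≤ zBFT n`, where the sieving limit `zBFT n` is
the largest `m` with `∏_{q ≤ m} (1 - 1 / q)⁻¹ ≤ log n`. `psi x H` is the sum of `log n` over the random primes in the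
interval of length `H` centred at `x`.

The theorem: almost surely, for every `ε > 0`, uniformly for real `H` with `X^ε < H < X^(1/2-ε)`,

`1/X ∫_1^X |psi x H - H|² dx = H (log X - log H - (γ + log 2π)) + o(H)`.

In particular the asymptotic formula of the question holds in the model for all `H(X)` with `X^ε < H(X) < X^(1/2-ε)`,
with the term `γ + log 2π` in its place. For `X^(1/2+ε) < H < X^(1-ε)` the left side is larger than the right side by a power
of `X` (the points `x < H / 2`, whose interval is not contained in `[0, ∞)`, give too much), so up to `ε` the range is the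
full range in which the formula can hold for the mean value over `[1, X]` with centred intervals.
-/

open MeasureTheory ProbabilityTheory Filter Topology

namespace Pool.Agent.Results.MP_2a816b_nt.GoldstonMontgomeryRandomSieve

/-- `V m = ∏ (1 - 1 / q)` over the primes `q ≤ m` -/
noncomputable def V (m : ℕ) : ℝ := ∏ q ∈ (Finset.range (m + 1)).filter Nat.Prime, (1 - 1 / (q : ℝ))

/-- the classes `a q` are independent, and `a q` is uniform on `0, …, q - 1` for every prime `q` -/
structure Model {Ω : Type} [MeasurableSpace Ω] (P : Measure Ω) (a : ℕ → Ω → ℕ) : Prop where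
  measurable : ∀ q, Measurable (a q)
  independent : iIndepFun a P
  uniform : ∀ q, q.Prime → ∀ r < q, P.real {ω | a q ω = r} = 1 / q

/-- the sieving limit of Banks, Ford and Tao: the largest `m` with `∏_{q ≤ m} (1 - 1 / q)⁻¹ ≤ log n` -/
noncomputable def zBFT (n : ℕ) : ℕ := sSup {m : ℕ | (V m)⁻¹ ≤ Real.log n}

/-- the set of the random primes -/
def R {Ω : Type} (a : ℕ → Ω → ℕ) (ω : Ω) : Set ℕ :=
  {n | 3 ≤ n ∧ ∀ q ≤ zBFT n, q.Prime → n % q ≠ a q ω}

open Classical in
/-- `ψ(x; H)`: the sum of `log n` over the random primes `n` with `x - H / 2 ≤ n ≤ x + H / 2` -/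
noncomputable def psi {Ω : Type} (a : ℕ → Ω → ℕ) (ω : Ω) (x H : ℝ) : ℝ :=
  ∑ n ∈ (Finset.Icc ⌈x - H / 2⌉₊ ⌊x + H / 2⌋₊).filter (fun n => n ∈ R a ω), Real.log n

/-- the mean square `1/X ∫_1^X |ψ(x; H) - H|² dx` -/
noncomputable def MeanSquare {Ω : Type} (a : ℕ → Ω → ℕ) (ω : Ω) (X H : ℝ) : ℝ :=
  1 / X * ∫ x in (1 : ℝ)..X, |psi a ω x H - H| ^ 2

/-- `H (log X - log H - (γ + log 2π))` -/
noncomputable def Main (X H : ℝ) : ℝ :=
  H * (Real.log X - Real.log H - (Real.eulerMascheroniConstant + Real.log (2 * Real.pi)))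

/-- **The variance of the random primes in short intervals.** -/
theorem result :
    (∃ (Ω : Type) (_ : MeasurableSpace Ω) (P : Measure Ω) (a : ℕ → Ω → ℕ), Model P a) ∧
    Tendsto (fun n => V (zBFT n) * Real.log n) atTop (𝓝 1) ∧
    ∀ (Ω : Type) [MeasurableSpace Ω] (P : Measure Ω) (a : ℕ → Ω → ℕ), Model P a →
      ∀ᵐ ω ∂P,
        (∀ ε δ : ℝ, 0 < ε → 0 < δ → ∃ X₀ : ℝ, ∀ X : ℝ, X₀ ≤ X → ∀ H : ℝ,
          X ^ ε < H → H < X ^ (1 / 2 - ε) → |MeanSquare a ω X H - Main X H| ≤ δ * H) ∧
        (∀ ε : ℝ, 0 < ε → ∀ H : ℝ → ℝ, (∀ᶠ X in atTop, X ^ ε < H X ∧ H X < X ^ (1 / 2 - ε)) →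
          Tendsto (fun X => MeanSquare a ω X (H X) / Main X (H X)) atTop (𝓝 1)) ∧
        (∀ ε : ℝ, 0 < ε → ∃ X₀ : ℝ, ∀ X : ℝ, X₀ ≤ X → ∀ H : ℝ, X ^ (1 / 2 + ε) < H → H < X ^ (1 - ε) →
          0 < Main X H ∧ X ^ ε * Main X H ≤ MeanSquare a ω X H) := by
  refine ⟨?_, Pool.Agent.T2H32.BF.z0_lim, ?_⟩
  · obtain ⟨Ω, i, P, a, h⟩ := Pool.Agent.T2H32.BF.exists_model
    exact ⟨Ω, i, P, a, h.measurable, h.independent, h.uniform⟩
  · intro Ω _ P a hmod
    have h : Pool.Agent.T2H32.BF.Model P a := ⟨hmod.measurable, hmod.independent, hmod.uniform⟩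
    filter_upwards [Pool.Agent.H531.VR.main_GM Ω P a h, Pool.Agent.H531.VR.main_edge Ω P a h] with ω hω hω2
    have key : ∀ ε δ : ℝ, 0 < ε → 0 < δ → ∃ X₀ : ℝ, ∀ X : ℝ, X₀ ≤ X → ∀ H : ℝ,
          X ^ ε < H → H < X ^ (1 / 2 - ε) → |MeanSquare a ω X H - Main X H| ≤ δ * H := by
      intro ε δ hε hδ
      obtain ⟨X₀, hX₀⟩ := eventually_atTop.1 (hω ε δ hε hδ)
      refine ⟨X₀, fun X hX H h1 h2 => ?_⟩
      have h3 := hX₀ X hX H h1 h2
      unfold MeanSquare Main
      simp_rw [sq_abs]
      exact h3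
    have hγ0 : 0 < Real.eulerMascheroniConstant := by
      have := Real.one_half_lt_eulerMascheroniConstant
      linarith
    have hl2π : 0 ≤ Real.log (2 * Real.pi) := Real.log_nonneg (by linarith [Real.pi_gt_three])
    refine ⟨key, fun ε hε H hH => ?_, fun ε hε => ?_⟩
    swap
    · obtain ⟨X₀, hX₀⟩ := eventually_atTop.1 (hω2 ε hε)
      obtain ⟨X₁, hX₁⟩ := eventually_atTop.1 ((Real.tendsto_log_atTop.eventually_gt_atTop
        ((Real.eulerMascheroniConstant + Real.log (2 * Real.pi)) / ε)).and (eventually_gt_atTop (1 : ℝ)))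
      refine ⟨max X₀ X₁, fun X hX H h1 h2 => ?_⟩
      obtain ⟨h3, h4⟩ := hX₁ X ((le_max_right _ _).trans hX)
      have h5 := hX₀ X ((le_max_left _ _).trans hX) H h1 h2
      have hX0 : 0 < X := by linarith
      have hH1 : 1 < H := lt_of_le_of_lt (Real.one_le_rpow h4.le (by positivity)) h1
      have hH0 : 0 < H := by linarith
      have hlogH : Real.log H ≤ (1 - ε) * Real.log X := by
        rw [← Real.log_rpow hX0]
        exact Real.log_le_log hH0 h2.le
      rw [div_lt_iff₀ hε] at h3
      constructor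
      · unfold Main
        apply mul_pos hH0
        nlinarith
      · have h6 : MeanSquare a ω X H = 1 / X * ∫ x in (1 : ℝ)..X, (psi a ω x H - H) ^ 2 := by
          unfold MeanSquare
          simp_rw [sq_abs]
        rw [h6]
        refine le_trans ?_ h5
        apply mul_le_mul_of_nonneg_left _ (by positivity)
        unfold Main
        apply mul_le_mul_of_nonneg_left _ hH0.le
        have := Real.log_nonneg hH1.le
        linarith
    rw [Metric.tendsto_atTop]
    intro δ hδ
    obtain ⟨X₀, hX₀⟩ := key ε (δ / 2) hε (by positivity)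
    obtain ⟨X₁, hX₁⟩ := eventually_atTop.1 (hH.and ((Real.tendsto_log_atTop.eventually_ge_atTop
      (2 * (1 + (Real.eulerMascheroniConstant + Real.log (2 * Real.pi))))).and (eventually_gt_atTop (1 : ℝ))))
    refine ⟨max X₀ X₁, fun X hX => ?_⟩
    obtain ⟨⟨h1, h2⟩, h3, h4⟩ := hX₁ X ((le_max_right _ _).trans hX)
    have hk := hX₀ X ((le_max_left _ _).trans hX) (H X) h1 h2
    have hX0 : 0 < X := by linarith
    have hH1 : 1 < H X := lt_of_le_of_lt (Real.one_le_rpow h4.le hε.le) h1
    have hH0 : 0 < H X := by linarith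
    have hlogH : Real.log (H X) ≤ 1 / 2 * Real.log X := by
      rw [← Real.log_rpow hX0]
      apply Real.log_le_log hH0
      refine h2.le.trans (Real.rpow_le_rpow_of_exponent_le h4.le (by linarith))
    have hD : 1 ≤ Real.log X - Real.log (H X) - (Real.eulerMascheroniConstant + Real.log (2 * Real.pi)) := by
      linarith
    have hM : H X ≤ Main X (H X) := by
      unfold Main
      exact le_mul_of_one_le_right hH0.le hD
    have hM0 : 0 < Main X (H X) := by linarith
    rw [Real.dist_eq]
    have e : MeanSquare a ω X (H X) / Main X (H X) - 1 = (MeanSquare a ω X (H X) - Main X (H X)) / Main X (H X) := by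
      field_simp
    rw [e, abs_div, abs_of_pos hM0, div_lt_iff₀ hM0]
    calc |MeanSquare a ω X (H X) - Main X (H X)| ≤ δ / 2 * H X := hk
      _ ≤ δ / 2 * Main X (H X) := by gcongr
      _ < δ * Main X (H X) := by
          apply mul_lt_mul_of_pos_right _ hM0
          linarith

end Pool.Agent.Results.MP_2a816b_nt.GoldstonMontgomeryRandomSieve
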