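import Pool.Agent.H479.Z.Cor2

/-!
# A lower bound for the variance of the primes in short intervals, and the zeros of zeta

No hypothesis is assumed.  Let `J(x, h) = ψ(e^h x) - ψ(x) - (e^h - 1) x`, let `V(T, x)` be the mean
of `J(x, h)²` over exponentially distributed `h` with mean `1/T`, and let

  `W(b, T) = (T / log² T) ∫_T^{T^b} (b - log x / log T) V(T, x) x⁻² dx`.

The conjecture of Goldston and Montgomery says `V(T, x) ~ (x / T) log T` in the mean, for
`T ≤ x ≤ T^b`, hence `W(b, T) → (b - 1)²/2`.

For every `b > 1` and `K > 0` we prove the lower bound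

  `W(b, T) ≥ (b - 1)²/2 - 1/6 + (b²/π) arctan(K) D(K, T) - o(1)`,

where `D(K, T)` is the proportion of the zeros of zeta that are multiple or off the critical line,
among the zeros with ordinate `γ` in `(0, K T]`, each counted with its multiplicity and the weight
`1/(T² + γ²)`; for large `K` the last term is `(b²/2) D(K, T)`.  So the variance is never much
smaller than conjectured (the relative loss is at most `1/(3 (b - 1)²)`), and zeros which are off
the line or multiple increase it by a positive proportion of the main term: if `W(b, T)` is at most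
`(1 + δ)` times the conjectured value, for large `b`, then the proportion is at most `δ`.

The idea of the proof.  The Fourier transform in `y` of a smooth version of
`ψ(e^(y+h)) - ψ(e^y) - (e^h - 1) e^y` is a prime polynomial minus its main term; by Plancherel, the
mean over `h` becomes the mean square of the prime polynomial with the weight `1/(T² + t²)`.
This weight is an integral of indicator functions of dyadic blocks, where the mean squares of the
long prime polynomials dominate the multiple zeros and the zeros off the line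
(MP_1e057a_nt.PrimeMeanSquare).
The smooth version is compared to the sharp one by partial summation; as `V` is a mean over `h`, the
inequality of Cauchy-Schwarz loses nothing.
-/

open MeasureTheory Filter Topology Complex

namespace Pool.Agent.Results.MP_2a816b_nt.LowerBoundAndBadZeros

/-- `ψ(e^h x) - ψ(x) - (e^h - 1) x` -/
noncomputable def J (x h : ℝ) : ℝ :=
  Chebyshev.psi (Real.exp h * x) - Chebyshev.psi x - (Real.exp h - 1) * x

/-- the variance at `x` for intervals of relative length about `1/T`: the mean of `J(x, h)²` over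
exponentially distributed `h` of mean `1/T` -/
noncomputable def V (T x : ℝ) : ℝ :=
  ∫ h in Set.Ioi (0 : ℝ), T * Real.exp (-(T * h)) * J x h ^ 2

/-- the weighted mean of the variance over `T ≤ x ≤ T^b`, normalised -/
noncomputable def W (b T : ℝ) : ℝ :=
  T / Real.log T ^ 2 * ∫ x in T..(T ^ b), (b - Real.log x / Real.log T) * V T x / x ^ 2

/-- the nontrivial zeros of the zeta function with imaginary part in `(a, b]` -/
def zeros (a b : ℝ) : Set ℂ :=
  {s : ℂ | 0 < s.re ∧ s.re < 1 ∧ a < s.im ∧ s.im ≤ b ∧ riemannZeta s = 0}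

/-- the multiplicity of a zero -/
noncomputable def mult (s : ℂ) : ℕ := analyticOrderNatAt riemannZeta s

/-- the number of zeros, counted with multiplicity -/
noncomputable def N (a b : ℝ) : ℕ := ∑ᶠ s ∈ zeros a b, mult s

/-- the number of simple zeros on the critical line -/
noncomputable def Ns (a b : ℝ) : ℕ := {s ∈ zeros a b | s.re = 1 / 2 ∧ mult s = 1}.ncard

/-- the number, counted with multiplicity, of the zeros that are multiple or off the line -/
noncomputable def Nb (a b : ℝ) : ℝ := (N a b : ℝ) - Ns a b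

/-- the zeros with ordinate in `(a, b]` that are multiple or off the critical line -/
def bad (a b : ℝ) : Set ℂ := {s ∈ zeros a b | ¬ (s.re = 1 / 2 ∧ mult s = 1)}

/-- the zeros that are multiple or off the line, up to the height `K T`, with the weight
`1/(T² + γ²)` -/
noncomputable def B (K T : ℝ) : ℝ := ∑ᶠ s ∈ bad 0 (K * T), (mult s : ℝ) / (T ^ 2 + s.im ^ 2)

/-- their proportion among all the zeros up to the height `K T`, with the same weight -/
noncomputable def D (K T : ℝ) : ℝ :=
  B K T / ∑ᶠ s ∈ zeros 0 (K * T), (mult s : ℝ) / (T ^ 2 + s.im ^ 2)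

/-- **A lower bound for the variance of the primes in short intervals.** -/
theorem result :
    -- (1) the lower bound, with the weighted sum over the zeros that are multiple or off the line
    (∀ b K ε : ℝ, 1 < b → 0 < K → 0 < ε → ∀ᶠ T in atTop,
      (b - 1) ^ 2 / 2 - 1 / 6 + 2 * b ^ 2 * (T / Real.log T * B K T) - ε ≤ W b T) ∧
    -- the same with their proportion
    (∀ b K ε : ℝ, 1 < b → 0 < K → 0 < ε → ∀ᶠ T in atTop,
      (b - 1) ^ 2 / 2 - 1 / 6 + b ^ 2 / Real.pi * Real.arctan K * D K T - ε ≤ W b T) ∧
    -- (2) one `b`: an upper bound for the variance with the constant `1 + δ` bounds the proportion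
    (∀ b δ : ℝ, 1 < b →
      (∀ ε : ℝ, 0 < ε → ∀ᶠ T in atTop, W b T ≤ (1 + δ + ε) * ((b - 1) ^ 2 / 2)) →
      ∀ K ε : ℝ, 0 < K → 0 < ε → ∀ᶠ T in atTop,
        2 / Real.pi * Real.arctan K * D K T ≤ δ * ((b - 1) / b) ^ 2 + 1 / (3 * b ^ 2) + ε) ∧
    -- (3) arbitrarily large `b`: the weighted proportion is at most `δ`, the unweighted one `π δ`
    (∀ δ : ℝ, 0 ≤ δ →
      (∀ ε : ℝ, 0 < ε → ∀ B : ℝ, ∃ b : ℝ, B < b ∧ ∀ᶠ T in atTop,
        W b T ≤ (1 + δ + ε) * ((b - 1) ^ 2 / 2)) →
      (∀ K ε : ℝ, 0 < K → 0 < ε → ∀ᶠ T in atTop,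
        2 / Real.pi * Real.arctan K * D K T ≤ δ + ε) ∧
      ∀ ε : ℝ, 0 < ε → ∀ᶠ T in atTop, Nb 0 T ≤ (Real.pi * δ + ε) * N 0 T) ∧
    -- the case `δ = 0`
    ((∀ ε : ℝ, 0 < ε → ∀ B : ℝ, ∃ b : ℝ, B < b ∧ ∀ᶠ T in atTop,
        W b T ≤ (1 + ε) * ((b - 1) ^ 2 / 2)) →
      Tendsto (fun T : ℝ => (Ns 0 T : ℝ) / N 0 T) atTop (𝓝 1)) := by
  have hD : ∀ K T : ℝ, D K T = H479.Z.DD K T := fun K T => by
    unfold D B H479.Z.DD
    rw [H479.Z.nA_finsum, H479.Z.nB_finsum]
    rfl
  have hB : ∀ K T : ℝ, B K T = H479.Z.nB K T := fun K T => by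
    rw [H479.Z.nB_finsum]
    rfl
  simp only [hD, hB]
  refine ⟨fun b K ε hb hK hε => ?_, fun b K ε hb hK hε => ?_, fun b δ hb h => ?_,
    fun δ hδ h => ⟨H479.Z.share_le δ hδ h, H479.Z.bad_le δ hδ h⟩, fun h => H479.Z.simple h⟩
  · obtain ⟨T₀, h⟩ := H479.Z.lower_bound2 b ε K hb hε hK
    filter_upwards [eventually_ge_atTop T₀] with T hT
    have := h T hT
    rw [← H479.Z.W_eq] at this
    exact this
  · obtain ⟨T₀, h⟩ := H479.Z.lower_share b ε K hb hε hK
    filter_upwards [eventually_ge_atTop T₀] with T hT
    exact h T hT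
  · exact H479.Z.share_one b δ hb h

end Pool.Agent.Results.MP_2a816b_nt.LowerBoundAndBadZeros
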