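import Pool.Agent.H414.LT.Che
import Pool.Agent.H414.GE.Exp
import Pool.Agent.H414.GE.Sel
import Pool.Agent.H414.GV.Sg
import Pool.Agent.H414.GV.Pb
import Pool.Agent.H414.GV.Pc
import Pool.Agent.H414.GV.Pg
import Pool.Agent.H414.GV.Bti
import Pool.Agent.H414.GV.T5

/-!
# The Riemann hypothesis, with arbitrary twists, and the variance of primes in short intervals

For any bounded twists `c j : ℕ → ℂ`, any lengths `H k` with `X ^ ε ≤ H k ≤ X ^ (1 - ε)`, `X = 2 ^ k`, and any real
numbers `κ k n` there is a set `P` of primes of relative density one, which is as close to the primes as square root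
cancellation in all sums twisted by all Dirichlet characters of all moduli can tell (`Close`), and

`∑_{X < n ≤ 2 X} |#(P ∩ (n, n + H]) - κ k n| ^ 2 ≥ c₀ H X`

for `H = H k` and all large `k`, whatever the expected values `κ` are. With the weights `log p` in place of `1`
this corresponds to `c₀ H X (log X) ^ 2`, which is the order of Selberg's upper bound for the primes (which assumes the
Riemann hypothesis), whereas the conjecture of Goldston and Montgomery is `H X log (X / H)` (in our
normalisation: `H X log (X / H) / (log X) ^ 2`). So no better bound than Selberg's follows from the bounds for the sums over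
primes which the Riemann hypothesis gives, even if such bounds were known for all characters and with countably
many arbitrary twists, for instance by all `p ^ (i t)`, `t` rational.

Proof. Divide the block `(2 ^ k, 2 ^ (k + 1)]` into cells of the length `L H` (`L` a large constant), choose random signs `ω_u` for the cells, and remove
from the primes of the cell `u` a random set with the probability `1 / (2 k + 2) + b ω_u`, where `b` is a small constant
times `k H ^ (- 1 / 2)`. By the Brun-Titchmarsh inequality the variance of all twisted sums is at most `2 ^ k`.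
-/

set_option autoImplicit false

namespace Pool.Agent.Results.MP_2a816b_nt.SelbergBoundAttained

open Finset
open Pool.Agent.H414.GE (Close)
open Pool.Agent.H414.GV

/-- Relative density one sets of primes with square root cancellation for all characters with arbitrary twists
and with variance at least `c₀ H X` in intervals of the length `H = H k`, `X = 2 ^ k`. -/
theorem result : ∀ (ε : ℝ) (H : ℕ → ℕ), 0 < ε → ε < 1 →
    (∃ k₀ : ℕ, ∀ k : ℕ, k₀ ≤ k →
      (2 : ℝ) ^ (ε * k) ≤ H k ∧ (H k : ℝ) ≤ (2 : ℝ) ^ ((1 - ε) * k)) → ∀ κ : ℕ → ℕ → ℝ,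
    ∀ c : ℕ → ℕ → ℂ, (∀ j n, ‖c j n‖ ≤ 1) →
    ∃ (P : Set ℕ) (w : ℕ → ℝ) (c₀ : ℝ) (k₁ : ℕ), 0 < c₀ ∧ (∀ p ∈ P, p.Prime) ∧
      (∀ k : ℕ, 1 - 1 / ((k : ℝ) + 1) ≤ w k ∧ w k ≤ 1) ∧ Close P w c ∧
      ∀ k, k₁ ≤ k → c₀ * H k * 2 ^ k ≤
        ∑ n ∈ Ioc (2 ^ k) (2 ^ (k + 1)), (cnt P n (H k) - κ k n) ^ 2 :=
  t5 Pool.Agent.H414.LT.che bti (pg (pc (pb (sg Pool.Agent.H414.GE.exq)
    (Pool.Agent.H414.GE.sele Pool.Agent.H414.GE.exq))))

end Pool.Agent.Results.MP_2a816b_nt.SelbergBoundAttained
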