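import Pool.Agent.H479.X.Main

/-!
# The upper half of the asymptotic formula for the variance of primes in short intervals

Let `ψ(x; H)` be the sum of `Λ(n)` over `x - H/2 ≤ n ≤ x + H/2` and

  `V(X, H) = (1/X) ∫_X^{2X} (ψ(x; H) - H)² dx`.

(The mean over `[X, 2X]` is free of the points `x < H/2`, which spoil the formula of the problem
as it stands for `H > X^(1/2 + δ)`.)  The conjecture of Goldston and Montgomery says
`V(X, H) ~ H (log X - log H - (γ + log 2π))` for `X^ε ≤ H ≤ X^(1 - ε)`.

We prove, without any hypothesis: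

1. The Riemann hypothesis and the pair correlation conjecture together are equivalent to the UPPER
   half of the formula in the mean over the lines `X / H = T`: for all `1 ≤ u < v`
   `limsup (1 / log T) ∫_{T^u}^{T^v} V(X, X/T) / ((X/T) log T) dX/X ≤ v - u`,
   and to the asymptotic formula in this mean.
2. If for every `ε > 0` the upper bound `V(X, H) ≤ (1 + ε) H log (X/H)` holds for all large `X` and
   all `X^ε ≤ H ≤ X^(1-ε)`, and if `V(X, H) ≤ C H log X` for `1 ≤ H ≤ X^δ` with some `C` and
   `δ > 0`, then the Riemann hypothesis and the pair correlation conjecture hold, and the asymptotic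
   formula holds for almost all pairs `(log X, log H)`, and for almost all `log X` on the lines
   `X / H = T`.

Idea of the proof.  A double integral and a change of variables relate the mean of `V` along the
line `X / H = T` to the mean over `S` in `[T, 2T]` (up to shifts by `1/2`) of
`G(S; u, v) = (S / log² S) ∫_{S^u}^{S^v} (ψ(x + x/S) - ψ(x) - x/S)² x⁻² dx`.  If this mean is
bounded, then the Riemann hypothesis holds.  On the Riemann hypothesis the explicit formula
expresses smooth averages of `G` by sums over pairs of zeros; the positivity of this sum for a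
smooth version of the tent `max 0 (1 - |α|/b)` and Montgomery's theorem give
`∫_1^b (G(T; 1, t) - (t - 1)) dt ≥ -1/6 - o(1)`, hence the same for the means over `S`.  By the
upper half the function `t ↦ mean of G(S; 1, t) - (t - 1)` is nonincreasing up to `o(1)`, so a
negative value would persist, which is impossible for large `b`: the mean of `G(S; u, v)` converges
to `v - u`.  A differencing argument shows that `G(S; u, v)` changes little for nearby `S`, so the
upper half holds for every `S`, and the one-sided criterion for the pair correlation conjecture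
(`MP_f58427_nt.OneSidedPrimeVariance`) applies.  The statements on almost all pairs follow from the
upper bound at all points and the asymptotic formula in the mean.
-/

open MeasureTheory Filter Topology

namespace Pool.Agent.Results.MP_2a816b_nt.UpperHalf

/-- `ψ(x; H)`: the sum of `Λ(n)` over `n ≥ 1`, `x - H/2 ≤ n ≤ x + H/2` -/
noncomputable def psi (x H : ℝ) : ℝ :=
  ∑ n ∈ Finset.Icc ⌈x - H / 2⌉₊ ⌊x + H / 2⌋₊, ArithmeticFunction.vonMangoldt n

/-- the variance: the mean of `(ψ(x; H) - H)²` over `X ≤ x ≤ 2X` -/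
noncomputable def V (X H : ℝ) : ℝ := 1 / X * ∫ x in X..(2 * X), (psi x H - H) ^ 2

/-- the upper half of the asymptotic formula for the lengths between `X ^ ε` and `X ^ (1 - ε)` -/
def UpperHalf : Prop := ∀ ε : ℝ, 0 < ε → ∀ᶠ X in atTop, ∀ H : ℝ, X ^ ε ≤ H → H ≤ X ^ (1 - ε) →
  V X H ≤ (1 + ε) * (H * Real.log (X / H))

/-- a bound of the right order of magnitude for the lengths up to a small power of `X` -/
def ShortLengths : Prop := ∃ C δ : ℝ, 0 < δ ∧ ∀ᶠ X in atTop, ∀ H : ℝ, 1 ≤ H → H ≤ X ^ δ →
  V X H ≤ C * (H * Real.log X)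

/-- the mean of the normalised variance over the points `T ^ u ≤ X ≤ T ^ v` of the line
`X / H = T`: `(1 / log T) ∫_{T^u}^{T^v} V(X, X/T) / ((X/T) log T) dX/X` -/
noncomputable def W (T u v : ℝ) : ℝ :=
  1 / Real.log T * ∫ X in (T ^ u)..(T ^ v), V X (X / T) / (X / T * Real.log T) / X

/-- the upper half in the mean: `limsup W(T; u, v) ≤ v - u` for all `1 ≤ u < v` -/
def UpperHalfInMean : Prop := ∀ u v : ℝ, 1 ≤ u → u < v → ∀ ε : ℝ, 0 < ε →
  ∀ᶠ T in atTop, W T u v ≤ v - u + ε

/-- the asymptotic formula in the mean: `W(T; u, v) → v - u` for all `1 ≤ u < v` -/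
def AsymptoticInMean : Prop := ∀ u v : ℝ, 1 ≤ u → u < v →
  Tendsto (fun T => W T u v) atTop (𝓝 (v - u))

/-- the asymptotic formula for almost all `x = log X`, `u log T ≤ x ≤ v log T`, on the line
`X / H = T` -/
def AlmostAllOnLines : Prop := ∀ u v ε : ℝ, 1 ≤ u → u < v → 0 < ε → ∀ᶠ T in atTop,
  volume {x : ℝ | u * Real.log T ≤ x ∧ x ≤ v * Real.log T ∧
    ε < |V (Real.exp x) (Real.exp x / T) / (Real.exp x / T * Real.log T) - 1|} ≤
      ENNReal.ofReal (ε * Real.log T)

/-- the asymptotic formula `V(X, H) ~ H (log X - log H - (γ + log 2π))` for almost all pairs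
`(log X, log H)` with `X ≤ e ^ L` and `X ^ ε ≤ H ≤ X ^ (1 - ε)` -/
def AlmostAllPairs : Prop := ∀ ε : ℝ, 0 < ε → ∀ᶠ L in atTop,
  volume {p : ℝ × ℝ | 0 ≤ p.1 ∧ p.1 ≤ L ∧ ε * p.1 ≤ p.2 ∧ p.2 ≤ (1 - ε) * p.1 ∧
    ε < |V (Real.exp p.1) (Real.exp p.2) / (Real.exp p.2 *
      (p.1 - p.2 - (Real.eulerMascheroniConstant + Real.log (2 * Real.pi)))) - 1|} ≤
      ENNReal.ofReal (ε * L ^ 2)

/-- the nontrivial zeros of `ζ` -/
def zeros : Set ℂ := {s : ℂ | riemannZeta s = 0 ∧ 0 < s.re ∧ s.re < 1}

/-- the multiplicity of a zero of `ζ` -/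
noncomputable def mult (s : ℂ) : ℕ := analyticOrderNatAt riemannZeta s

/-- `N*(T, a)`: the number of ordered pairs `(γ, γ')` of ordinates of nontrivial zeros, counted
with multiplicity, with `0 < γ ≤ T` and `0 < γ - γ' ≤ 2πa / log T` -/
noncomputable def Nstar (T a : ℝ) : ℕ :=
  ∑ᶠ s ∈ {s : ℂ | s ∈ zeros ∧ 0 < s.im ∧ s.im ≤ T}, ∑ᶠ s' ∈ {s' : ℂ | s' ∈ zeros ∧
    0 < s.im - s'.im ∧ s.im - s'.im ≤ 2 * Real.pi * a / Real.log T}, mult s * mult s'

/-- Montgomery's pair correlation conjecture -/
def PairCorrelation : Prop := ∀ a : ℝ, 0 < a →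
  Tendsto (fun T => (Nstar T a : ℝ) / (T * Real.log T)) atTop
    (𝓝 (1 / (2 * Real.pi) *
      ∫ u in (0 : ℝ)..a, (1 - (Real.sin (Real.pi * u) / (Real.pi * u)) ^ 2)))

/-- **The upper half of the asymptotic formula for the variance of primes in short intervals.**
(1) RH and the pair correlation conjecture together are equivalent to the upper half in the mean,
and to the asymptotic formula in the mean.  (2) The upper half for all lengths between `X ^ ε` and
`X ^ (1 - ε)`, with a bound of the right order for shorter lengths, implies RH, the pair correlation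
conjecture and the asymptotic formula for almost all pairs `(log X, log H)`. -/
theorem result :
    (RiemannHypothesis ∧ PairCorrelation ↔ UpperHalfInMean) ∧
    (UpperHalfInMean ↔ AsymptoticInMean) ∧
    (UpperHalf → ShortLengths → RiemannHypothesis ∧ PairCorrelation ∧ AsymptoticInMean ∧
      AlmostAllOnLines ∧ AlmostAllPairs) := by
  have h1 : UpperHalfInMean → AsymptoticInMean := fun h => H479.X.As_of_Up h
  have h2 : AsymptoticInMean → UpperHalfInMean := fun h => H479.X.Up_of_As h
  have h3 : UpperHalfInMean → RiemannHypothesis ∧ PairCorrelation := fun h => by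
    have hO := H479.X.OS_of_Up' h
    have RH := H479.V.RH_of_OS hO
    exact ⟨RH, (H479.V.Aa_iff RH).2 (H479.V.Aa_of_OS hO)⟩
  refine ⟨⟨fun h => ?_, h3⟩, ⟨h1, h2⟩, fun hU hS => ?_⟩
  · obtain ⟨RH, hP⟩ := h
    exact h2 (H479.X.As_of_TS' (H479.V.TS_of_Aa RH ((H479.V.Aa_iff RH).1 hP)))
  · have hup : UpperHalfInMean := H479.X.upr hU hS
    have hAs := h1 hup
    obtain ⟨RH, hP⟩ := h3 hup
    refine ⟨RH, hP, hAs, ?_, ?_⟩
    · exact fun u v ε hu huv hε => H479.X.aal_ge H479.X.mv hU hAs u v ε hu huv hε
    · exact fun ε hε => H479.X.aa2' hU hAs _ ε hε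

end Pool.Agent.Results.MP_2a816b_nt.UpperHalf
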